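import Pool.Agent.H43.Geo5

/-!
Constant heat flux at a single time characterises balls.
-/

set_option autoImplicit false

namespace Pool.Agent.Results.MP_0a7051_an.OneTimeFlux

open Pool.Agent.H43.Flux

/-- Let `Ω` be a bounded domain of class `C²` in `ℝ^N` and let `u` be the solution of the heat
equation in `Ω` with zero boundary values and initial value one. If at one time `t > 0` the outward
normal derivative of `u t` is constant on `∂Ω`, then `Ω` is a ball. -/
theorem result (N : ℕ) (Ω : Set (EuclideanSpace ℝ (Fin N)))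
    (u : ℝ → EuclideanSpace ℝ (Fin N) → ℝ) (hΩ : IsC2Domain Ω) (hu : IsHeatSolution Ω u)
    (t : ℝ) (ht : 0 < t) (hflux : HasConstantFlux Ω u t) :
    ∃ (c : EuclideanSpace ℝ (Fin N)) (r : ℝ), 0 < r ∧ Ω = Metric.ball c r :=
  one_time hΩ hu ht hflux

end Pool.Agent.Results.MP_0a7051_an.OneTimeFlux
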